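import Pool.Agent.Helper57.TX.Defs
import Pool.Agent.Helper78.SG.MV
import Pool.Agent.Helper66.HG.MVb

/-!
# TX-A3: moments of a sum over primes
-/

set_option autoImplicit false
open MeasureTheory Set Filter Topology
open Pool.Agent.Helper57.TX

namespace Pool.Agent.Helper49.TX

/-- orderings of the prime factors -/
lemma fiber_card (Q : Finset ℕ) (hQ : ∀ p ∈ Q, p.Prime) (k n : ℕ) :
    ((Fintype.piFinset fun _ : Fin k => Q).filter fun f => ∏ i, f i = n).card ≤ k.factorial := by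
  classical
  rcases Finset.eq_empty_or_nonempty ((Fintype.piFinset fun _ : Fin k => Q).filter fun f => ∏ i, f i = n) with h | ⟨f₀, hf₀⟩
  · rw [h]
    simp
  · have hper : ∀ f ∈ (Fintype.piFinset fun _ : Fin k => Q).filter (fun f => ∏ i, f i = n),
        (List.ofFn f).Perm n.primeFactorsList := by
      intro f hf
      rw [Finset.mem_filter, Fintype.mem_piFinset] at hf
      apply Nat.primeFactorsList_unique
      · rw [List.prod_ofFn]
        exact hf.2
      · intro p hp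
        rw [List.mem_ofFn] at hp
        obtain ⟨i, hi⟩ := hp
        rw [← hi]
        exact hQ _ (hf.1 i)
    have hlen : n.primeFactorsList.length = k := by
      rw [← (hper f₀ hf₀).length_eq, List.length_ofFn]
    calc ((Fintype.piFinset fun _ : Fin k => Q).filter fun f => ∏ i, f i = n).card ≤
          (n.primeFactorsList.permutations.toFinset).card := by
          apply Finset.card_le_card_of_injOn (fun f => List.ofFn f)
          · intro f hf
            rw [Finset.mem_coe, List.mem_toFinset, List.mem_permutations]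
            exact hper f hf
          · intro f _ g _ hfg
            exact List.ofFn_injective hfg
      _ ≤ n.primeFactorsList.permutations.length := List.toFinset_card_le _
      _ = k.factorial := by rw [List.length_permutations, hlen]

/-- coefficients of the power -/
noncomputable def ak (Q : Finset ℕ) (r : ℕ → ℝ) (k n : ℕ) : ℝ :=
  ∑ f ∈ (Fintype.piFinset fun _ : Fin k => Q).filter (fun f => ∏ i, f i = n), ∏ i, r (f i)

lemma DP_pow (Q : Finset ℕ) (r : ℕ → ℝ) (k N : ℕ)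
    (hN : ∀ f ∈ Fintype.piFinset (fun _ : Fin k => Q), ∏ i, f i ≤ N) (t : ℝ) :
    DP Q r t ^ k = ∑ n ∈ Finset.range (N + 1), (ak Q r k n : ℂ) * (n : ℂ) ^ (-((1 / 2 : ℂ) + (t : ℂ) * Complex.I)) := by
  unfold DP
  have h1 : (∑ p ∈ Q, (r p : ℂ) * (p : ℂ) ^ (-((1 / 2 : ℂ) + (t : ℂ) * Complex.I))) ^ k =
      ∏ _i : Fin k, ∑ p ∈ Q, (r p : ℂ) * (p : ℂ) ^ (-((1 / 2 : ℂ) + (t : ℂ) * Complex.I)) := by
    rw [Finset.prod_const, Finset.card_univ, Fintype.card_fin]
  rw [h1, Finset.prod_univ_sum]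
  rw [← Finset.sum_fiberwise_of_maps_to (s := Fintype.piFinset fun _ : Fin k => Q) (t := Finset.range (N + 1))
    (g := fun f => ∏ i, f i) (fun f hf => Finset.mem_range.2 (Nat.lt_succ_of_le (hN f hf)))]
  refine Finset.sum_congr rfl fun n _ => ?_
  unfold ak
  push_cast
  rw [Finset.sum_mul]
  refine Finset.sum_congr rfl fun f hf => ?_
  rw [Finset.mem_filter, Fintype.mem_piFinset] at hf
  rw [Finset.prod_mul_distrib, ← hf.2]
  congr 1
  have : ∀ (s : Finset (Fin k)), (((∏ i ∈ s, f i : ℕ)) : ℂ) ^ (-((1 / 2 : ℂ) + (t : ℂ) * Complex.I)) =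
      ∏ i ∈ s, ((f i : ℕ) : ℂ) ^ (-((1 / 2 : ℂ) + (t : ℂ) * Complex.I)) := by
    intro s
    induction s using Finset.induction_on with
    | empty => simp
    | insert a s ha ih =>
      rw [Finset.prod_insert ha, Finset.prod_insert ha, Nat.cast_mul, Complex.natCast_mul_natCast_cpow, ih]
  exact (this Finset.univ).symm

lemma ak_sq (Q : Finset ℕ) (hQ : ∀ p ∈ Q, p.Prime) (r : ℕ → ℝ) (k n : ℕ) :
    (ak Q r k n) ^ 2 / n ≤ k.factorial * ∑ f ∈ (Fintype.piFinset fun _ : Fin k => Q).filter (fun f => ∏ i, f i = n),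
      ∏ i, (r (f i) ^ 2 / (f i : ℝ)) := by
  have h1 : (ak Q r k n) ^ 2 ≤ ((Fintype.piFinset fun _ : Fin k => Q).filter fun f => ∏ i, f i = n).card *
      ∑ f ∈ (Fintype.piFinset fun _ : Fin k => Q).filter (fun f => ∏ i, f i = n), (∏ i, r (f i)) ^ 2 := by
    unfold ak
    exact sq_sum_le_card_mul_sum_sq
  have h2 : (((Fintype.piFinset fun _ : Fin k => Q).filter fun f => ∏ i, f i = n).card : ℝ) ≤ k.factorial := by
    exact_mod_cast fiber_card Q hQ k n
  have h3 : 0 ≤ ∑ f ∈ (Fintype.piFinset fun _ : Fin k => Q).filter (fun f => ∏ i, f i = n), (∏ i, r (f i)) ^ 2 :=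
    Finset.sum_nonneg fun f _ => sq_nonneg _
  calc (ak Q r k n) ^ 2 / n ≤ (k.factorial *
        ∑ f ∈ (Fintype.piFinset fun _ : Fin k => Q).filter (fun f => ∏ i, f i = n), (∏ i, r (f i)) ^ 2) / n := by
        apply div_le_div_of_nonneg_right _ (Nat.cast_nonneg _)
        exact h1.trans (mul_le_mul_of_nonneg_right h2 h3)
    _ = k.factorial * ∑ f ∈ (Fintype.piFinset fun _ : Fin k => Q).filter (fun f => ∏ i, f i = n),
          (∏ i, r (f i)) ^ 2 / n := by
        rw [mul_div_assoc, Finset.sum_div]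
    _ = _ := by
        congr 1
        refine Finset.sum_congr rfl fun f hf => ?_
        rw [Finset.mem_filter] at hf
        rw [Finset.prod_div_distrib, Finset.prod_pow, ← hf.2]
        push_cast
        rfl

lemma sum_ak (Q : Finset ℕ) (hQ : ∀ p ∈ Q, p.Prime) (r : ℕ → ℝ) (k N : ℕ)
    (hN : ∀ f ∈ Fintype.piFinset (fun _ : Fin k => Q), ∏ i, f i ≤ N) :
    ∑ n ∈ Finset.range (N + 1), (ak Q r k n) ^ 2 / n ≤ k.factorial * (∑ p ∈ Q, r p ^ 2 / p) ^ k := by
  have h1 : (∑ p ∈ Q, r p ^ 2 / (p : ℝ)) ^ k = ∏ _i : Fin k, ∑ p ∈ Q, r p ^ 2 / (p : ℝ) := by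
    rw [Finset.prod_const, Finset.card_univ, Fintype.card_fin]
  rw [h1, Finset.prod_univ_sum, ← Finset.sum_fiberwise_of_maps_to (s := Fintype.piFinset fun _ : Fin k => Q)
    (t := Finset.range (N + 1)) (g := fun f => ∏ i, f i)
    (fun f hf => Finset.mem_range.2 (Nat.lt_succ_of_le (hN f hf))), Finset.mul_sum]
  exact Finset.sum_le_sum fun n _ => ak_sq Q hQ r k n

lemma cpow_cs {n : ℕ} (hn : 1 ≤ n) (a t : ℝ) : (a : ℂ) * (n : ℂ) ^ (-((1 / 2 : ℂ) + (t : ℂ) * Complex.I)) =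
    ((a / √n * Real.cos (Real.log n * t) : ℝ) : ℂ) - ((a / √n * Real.sin (Real.log n * t) : ℝ) : ℂ) * Complex.I := by
  rw [Pool.Agent.Helper66.HG.cpow_half hn]
  have h1 : Complex.exp (-(Real.log n * t : ℝ) * Complex.I) =
      (Real.cos (Real.log n * t) : ℂ) - (Real.sin (Real.log n * t) : ℂ) * Complex.I := by
    rw [Complex.exp_mul_I, ← Complex.ofReal_neg, ← Complex.ofReal_cos, ← Complex.ofReal_sin, Real.cos_neg, Real.sin_neg]
    push_cast
    ring
  rw [h1]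
  push_cast
  ring

lemma nsq (A B : ℝ) : ‖(A : ℂ) - (B : ℂ) * Complex.I‖ ^ 2 = A ^ 2 + B ^ 2 := by
  rw [← Complex.normSq_eq_norm_sq, Complex.normSq_apply]
  simp
  ring

/-- A3: moments of a sum over primes -/
theorem mom : ∃ T₀ : ℝ, ∀ T L : ℝ, T₀ ≤ T → 1 ≤ L → ∀ (Q : Finset ℕ) (r : ℕ → ℝ) (k : ℕ), (∀ p ∈ Q, p.Prime ∧ (p : ℝ) ≤ L) →
    L ^ k ≤ T ^ (1 / 4 : ℝ) →
    ∫ t in JJ T, ‖DP Q r t‖ ^ (2 * k) ≤ 4 * k.factorial * (∑ p ∈ Q, r p ^ 2 / p) ^ k * T := by
  have ev1 : ∀ᶠ T : ℝ in atTop, 80 ≤ T ^ (1 / 2 : ℝ) := (tendsto_rpow_atTop (by norm_num)).eventually_ge_atTop _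
  obtain ⟨T0, hT0⟩ := eventually_atTop.mp (ev1.and (eventually_ge_atTop 1))
  refine ⟨T0, fun T L hT hL Q r k hQ hLk => ?_⟩
  obtain ⟨f1, f2⟩ := hT0 T hT
  have hTp : 0 < T := by linarith
  have hQ' : ∀ p ∈ Q, p.Prime := fun p hp => (hQ p hp).1
  obtain ⟨N, hN⟩ : ∃ N : ℕ, N = ⌊L ^ k⌋₊ := ⟨_, rfl⟩
  have hLk1 : 1 ≤ L ^ k := one_le_pow₀ hL
  have hN1 : 1 ≤ N := by
    rw [hN]
    exact Nat.one_le_floor_iff _ |>.2 hLk1
  have hNL : (N : ℝ) ≤ L ^ k := by
    rw [hN]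
    exact Nat.floor_le (by positivity)
  have hfN : ∀ f ∈ Fintype.piFinset (fun _ : Fin k => Q), ∏ i, f i ≤ N := by
    intro f hf
    rw [Fintype.mem_piFinset] at hf
    rw [hN]
    apply Nat.le_floor
    push_cast
    calc ∏ i, (f i : ℝ) ≤ ∏ _i : Fin k, L := Finset.prod_le_prod (fun i _ => Nat.cast_nonneg _) fun i _ => (hQ _ (hf i)).2
      _ = L ^ k := by rw [Finset.prod_const, Finset.card_univ, Fintype.card_fin]
  obtain ⟨c, hc⟩ : ∃ c : ℕ → ℝ, c = fun n => if n = 0 then 0 else ak Q r k n / √n := ⟨_, rfl⟩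
  have hc0 : c 0 = 0 := by rw [hc]; simp
  -- the norm
  have hnorm : ∀ t : ℝ, ‖DP Q r t‖ ^ (2 * k) = (∑ n ∈ Finset.range (N + 1), c n * Real.cos (Real.log n * t)) ^ 2 +
        (∑ n ∈ Finset.range (N + 1), c n * Real.sin (Real.log n * t)) ^ 2 := by
    intro t
    have h1 : DP Q r t ^ k = ((∑ n ∈ Finset.range (N + 1), c n * Real.cos (Real.log n * t) : ℝ) : ℂ) -
        ((∑ n ∈ Finset.range (N + 1), c n * Real.sin (Real.log n * t) : ℝ) : ℂ) * Complex.I := by
      rw [DP_pow Q r k N hfN t]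
      push_cast
      rw [Finset.sum_mul, ← Finset.sum_sub_distrib]
      refine Finset.sum_congr rfl fun n _ => ?_
      rcases Nat.eq_zero_or_pos n with h | h
      · subst h
        have h2 : ak Q r k 0 = 0 := by
          unfold ak
          rw [Finset.filter_eq_empty_iff.2, Finset.sum_empty]
          intro f hf h3
          rw [Fintype.mem_piFinset] at hf
          rw [Finset.prod_eq_zero_iff] at h3
          obtain ⟨i, _, hi⟩ := h3
          exact (hQ' _ (hf i)).ne_zero hi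
        rw [h2, hc0]
        simp
      · rw [cpow_cs h]
        have h2 : c n = ak Q r k n / √n := by
          rw [hc]
          simp [h.ne']
        rw [h2]
        push_cast
        ring
    rw [mul_comm, pow_mul, ← norm_pow, h1, nsq]
  have hmv := Pool.Agent.Helper78.SG.mv_cplx hN1 c hc0 (show T / 2 ≤ 4 * T by linarith)
  have hS : ∑ n ∈ Finset.range (N + 1), c n ^ 2 ≤ k.factorial * (∑ p ∈ Q, r p ^ 2 / p) ^ k := by
    refine le_trans (Finset.sum_le_sum fun n _ => ?_) (sum_ak Q hQ' r k N hfN)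
    rw [hc]
    dsimp only
    split_ifs with h
    · subst h
      simp
    · rw [div_pow, Real.sq_sqrt (Nat.cast_nonneg _)]
  have hS0 : 0 ≤ ∑ n ∈ Finset.range (N + 1), c n ^ 2 := Finset.sum_nonneg fun n _ => sq_nonneg _
  simp only [← hnorm] at hmv
  have hJ : ∫ t in JJ T, ‖DP Q r t‖ ^ (2 * k) = ∫ t in (T / 2)..(4 * T), ‖DP Q r t‖ ^ (2 * k) := by
    rw [intervalIntegral.integral_of_le (by linarith), JJ, integral_Icc_eq_integral_Ioc]
  rw [hJ]
  refine hmv.trans ?_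
  have hN4 : (N : ℝ) ≤ T ^ (1 / 4 : ℝ) := hNL.trans hLk
  have hlogN : 1 + Real.log N ≤ N := by
    have h1 : (0:ℝ) < N := by exact_mod_cast hN1
    linarith [Real.log_le_sub_one_of_pos h1]
  have hlen : 4 * T - T / 2 + 20 * N * (1 + Real.log N) ≤ 4 * T := by
    have hN0 : (0:ℝ) ≤ N := Nat.cast_nonneg _
    have h1 : 20 * N * (1 + Real.log N) ≤ 20 * (T ^ (1 / 4 : ℝ) * T ^ (1 / 4 : ℝ)) := by
      calc 20 * N * (1 + Real.log N) ≤ 20 * N * N := by gcongr
        _ = 20 * (N * N) := by ring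
        _ ≤ _ := by gcongr
    have h2 : T ^ (1 / 4 : ℝ) * T ^ (1 / 4 : ℝ) = T ^ (1 / 2 : ℝ) := by
      rw [← Real.rpow_add hTp]
      norm_num
    have h3 : T ^ (1 / 2 : ℝ) * T ^ (1 / 2 : ℝ) = T := by
      rw [← Real.rpow_add hTp]
      norm_num
    rw [h2] at h1
    have h4 : 80 * T ^ (1 / 2 : ℝ) ≤ T := by
      calc 80 * T ^ (1 / 2 : ℝ) ≤ T ^ (1 / 2 : ℝ) * T ^ (1 / 2 : ℝ) := by gcongr
        _ = T := h3
    have h5 : 0 ≤ T ^ (1 / 2 : ℝ) := by positivity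
    linarith
  calc (4 * T - T / 2 + 20 * N * (1 + Real.log N)) * ∑ n ∈ Finset.range (N + 1), c n ^ 2 ≤
        4 * T * (k.factorial * (∑ p ∈ Q, r p ^ 2 / p) ^ k) := by
        apply mul_le_mul hlen hS hS0 (by positivity)
    _ = _ := by ring

lemma DP_cont (Q : Finset ℕ) (hQ : ∀ p ∈ Q, p.Prime) (r : ℕ → ℝ) : Continuous (DP Q r) := by
  unfold DP
  refine continuous_finsetSum _ fun n hn => ?_
  have hn0 : (n : ℂ) ≠ 0 := by exact_mod_cast (hQ n hn).ne_zero
  exact continuous_const.mul (Continuous.const_cpow (by fun_prop) (Or.inl hn0))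

/-- A4: its tail -/
theorem mom_tail : ∃ T₀ : ℝ, ∀ T L : ℝ, T₀ ≤ T → 1 ≤ L → ∀ (Q : Finset ℕ) (r : ℕ → ℝ) (k : ℕ), (∀ p ∈ Q, p.Prime ∧ (p : ℝ) ≤ L) →
    L ^ k ≤ T ^ (1 / 4 : ℝ) → ∀ V : ℝ, 0 < V →
    volume {t : ℝ | t ∈ JJ T ∧ V ≤ ‖DP Q r t‖} ≤
      ENNReal.ofReal (4 * k.factorial * ((∑ p ∈ Q, r p ^ 2 / p) / V ^ 2) ^ k * T) := by
  obtain ⟨T0, h⟩ := mom
  refine ⟨T0, fun T L hT hL Q r k hQ hLk V hV => ?_⟩
  have h1 := h T L hT hL Q r k hQ hLk
  have hQ' : ∀ p ∈ Q, p.Prime := fun p hp => (hQ p hp).1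
  have hc : Continuous fun t => ‖DP Q r t‖ ^ (2 * k) := (DP_cont Q hQ' r).norm.pow _
  have hi : IntegrableOn (fun t => ‖DP Q r t‖ ^ (2 * k)) (JJ T) := hc.continuousOn.integrableOn_Icc
  have h2 := mul_meas_ge_le_integral_of_nonneg (μ := volume.restrict (JJ T))
    (Eventually.of_forall fun t => (by positivity : (0:ℝ) ≤ ‖DP Q r t‖ ^ (2 * k))) hi (V ^ (2 * k))
  have hV2 : 0 < V ^ (2 * k) := by positivity
  have hfin : volume {t : ℝ | t ∈ JJ T ∧ V ≤ ‖DP Q r t‖} ≠ ⊤ := by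
    apply ne_of_lt
    refine (measure_mono (t := Icc (T / 2) (4 * T)) fun t ht => ht.1).trans_lt ?_
    rw [Real.volume_Icc]
    exact ENNReal.ofReal_lt_top
  have hsub : (volume {t : ℝ | t ∈ JJ T ∧ V ≤ ‖DP Q r t‖}).toReal ≤
      (volume.restrict (JJ T)).real {x | V ^ (2 * k) ≤ ‖DP Q r x‖ ^ (2 * k)} := by
    have hm : MeasurableSet {x | V ^ (2 * k) ≤ ‖DP Q r x‖ ^ (2 * k)} := measurableSet_le measurable_const hc.measurable
    rw [measureReal_restrict_apply hm]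
    apply ENNReal.toReal_mono
    · apply ne_of_lt
      refine (measure_mono (t := Icc (T / 2) (4 * T)) fun t ht => ht.2).trans_lt ?_
      rw [Real.volume_Icc]
      exact ENNReal.ofReal_lt_top
    · apply measure_mono
      intro t ht
      refine ⟨?_, ht.1⟩
      have := ht.2
      show V ^ (2 * k) ≤ ‖DP Q r t‖ ^ (2 * k)
      gcongr
  rw [← ENNReal.ofReal_toReal hfin]
  apply ENNReal.ofReal_le_ofReal
  refine hsub.trans ?_
  have h3 := h2.trans h1
  rw [mul_comm, ← le_div_iff₀ hV2] at h3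
  refine h3.trans (le_of_eq ?_)
  rw [div_pow, ← pow_mul]
  field_simp

end Pool.Agent.Helper49.TX
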