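import Pool.Agent.Helper49.TX.Point

/-!
# TX-A1: the error term, pointwise, on `[T/2, 4 T]`
-/

set_option autoImplicit false
open MeasureTheory Set Filter Topology
open Pool.Agent.Helper57.Zeta Pool.Agent.Helper57.LH Pool.Agent.Helper57.ED Pool.Agent.Helper54.LG
open Pool.Agent.Helper49.SO (Sn Pr)
open Pool.Agent.Helper69.UG (XX near far)

namespace Pool.Agent.Helper49.TX

/-- A1 -/
theorem sharp_pt4 : ∃ C k T₀ : ℝ, 0 < C ∧ 0 < k ∧ ∀ T M Y y : ℝ, T₀ ≤ T → 16 ≤ M → M ≤ Real.log T → 0 < Y → Y ≤ k * M →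
    T / 2 ≤ y → y ≤ 4 * T → |Sn y + 2 * Pr (XX T M) y - Pr (XX T (2 * M)) y| ≤ C * (M + |SS (XX T M) y| + far T M Y y) := by
  obtain ⟨C, k, T0, hC, hk, h⟩ := sharp_pt
  refine ⟨2 * C, k, max T0 2, by positivity, hk, fun T M Y y hT hM16 hML hY hYM hy1 hy2 => ?_⟩
  obtain ⟨hT1, hT2⟩ := max_le_iff.1 hT
  have hT0 : 0 < T := by linarith
  have hM0 : 0 < M := by linarith
  have hlog : 0 < Real.log T := by linarith
  have hfar := far_nonneg T M Y y
  have hS := abs_nonneg (SS (XX T M) y)
  rcases le_total y (3 * T) with h3 | h3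
  · refine (h T M Y y hT1 hM16 hML hY hYM hy1 h3).trans ?_
    nlinarith
  · obtain ⟨a, ha⟩ : ∃ a, a = Real.log (2 * T) / Real.log T := ⟨_, rfl⟩
    have hl2 : Real.log (2 * T) = Real.log 2 + Real.log T := Real.log_mul (by norm_num) hT0.ne'
    have hlog2 : 0 < Real.log 2 := Real.log_pos (by norm_num)
    have hlogT : Real.log 2 ≤ Real.log T := Real.log_le_log (by norm_num) hT2
    have ha1 : 1 ≤ a := by
      rw [ha, one_le_div hlog]
      linarith
    have ha2 : a ≤ 2 := by
      rw [ha, div_le_iff₀ hlog]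
      linarith
    have ha0 : 0 < a := by linarith
    have hla : Real.log (2 * T) = a * Real.log T := by
      rw [ha]
      field_simp
    have eX : ∀ N : ℝ, XX (2 * T) (a * N) = XX T N := by
      intro N
      unfold XX
      rw [hla]
      exact mul_div_mul_left _ _ ha0.ne'
    have eX2 : XX (2 * T) (2 * (a * M)) = XX T (2 * M) := by
      rw [show 2 * (a * M) = a * (2 * M) by ring, eX]
    have ef : far (2 * T) (a * M) (a * Y) y = far T M Y y := by
      unfold far
      rw [eX]
      congr 1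
      funext ρ
      have hiff : (Real.log (2 * T) * |(ρ : ℂ).re - 1 / 2| < a * Y) ↔ (Real.log T * |(ρ : ℂ).re - 1 / 2| < Y) := by
        rw [hla, mul_assoc]
        exact mul_lt_mul_iff_right₀ ha0
      simp only [hiff]
    have h4 := h (2 * T) (a * M) (a * Y) y (by linarith) (by nlinarith) (by rw [hla]; gcongr) (by positivity)
      (by calc a * Y ≤ a * (k * M) := by gcongr
            _ = k * (a * M) := by ring) (by linarith) (by linarith)
    rw [eX, eX2, ef] at h4
    refine h4.trans ?_
    have h5 : a * M ≤ 2 * M := by gcongr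
    calc C * (a * M + |SS (XX T M) y| + far T M Y y) ≤ C * (2 * M + 2 * |SS (XX T M) y| + 2 * far T M Y y) := by
          apply mul_le_mul_of_nonneg_left _ hC.le
          linarith
      _ = _ := by ring

end Pool.Agent.Helper49.TX
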