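import Pool.Agent.Helper49.SO.Smooth
import Pool.Agent.Helper24.UG.Ker

/-!
# TX: the kernel `2 k_X - k_(X/2)`

It has mass `1` and decays like `X/(X|s|)³`.
-/

set_option autoImplicit false
open MeasureTheory Set Filter Topology
open Pool.Agent.Helper57.Zeta Pool.Agent.Helper57.LH Pool.Agent.Helper57.ED Pool.Agent.Helper54.LG
open Pool.Agent.Helper49.SO
open Pool.Agent.Helper93.UG (zc)

namespace Pool.Agent.Helper49.TX

/-- the majorant -/
noncomputable def KM (X s : ℝ) : ℝ := X / (1 + X * |s|) ^ 3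

lemma KM_nonneg {X : ℝ} (hX : 0 ≤ X) (s : ℝ) : 0 ≤ KM X s := by
  unfold KM
  positivity

lemma KM_cont {X : ℝ} (hX : 0 ≤ X) : Continuous (KM X) := by
  unfold KM
  apply Continuous.div continuous_const (by fun_prop)
  intro s
  positivity

lemma qk_abs_two (b : ℝ) : 2 * qk 0 b ≤ 42 / (1 + b ^ 2) := by
  have h1 := qk_bound 0 b
  rw [Real.cosh_zero, mul_one] at h1
  have h2 := (le_abs_self _).trans h1
  calc 2 * qk 0 b ≤ 2 * (21 / (1 + b ^ 2)) := by linarith
    _ = _ := by ring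

/-- the combination of two scales -/
lemma qk_two (b : ℝ) : |2 * qk 0 b - qk 0 (b / 2) / 2| * (1 + |b|) ^ 3 ≤ 400 := by
  have hb := abs_nonneg b
  have h1 := qk_bound 0 b
  have h2 := qk_bound 0 (b / 2)
  rw [Real.cosh_zero, mul_one] at h1 h2
  rcases le_total |b| 1 with h | h
  · have h3 : |qk 0 b| ≤ 21 := h1.trans (div_le_self (by norm_num) (by linarith [sq_nonneg b]))
    have h4 : |qk 0 (b / 2)| ≤ 21 := h2.trans (div_le_self (by norm_num) (by linarith [sq_nonneg (b / 2)]))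
    have h5 : |2 * qk 0 b - qk 0 (b / 2) / 2| ≤ 50 := by
      rw [abs_le] at h3 h4 ⊢
      constructor <;> linarith [h3.1, h3.2, h4.1, h4.2, qk_zero_nonneg b, qk_zero_nonneg (b / 2)]
    calc |2 * qk 0 b - qk 0 (b / 2) / 2| * (1 + |b|) ^ 3 ≤ 50 * (1 + 1) ^ 3 := by gcongr
      _ = 400 := by norm_num
  · have hb0 : b ≠ 0 := by
      intro h0
      rw [h0, abs_zero] at h
      linarith
    have e1 := Pool.Agent.Helper24.UG.qk_closed b
    have e2 := Pool.Agent.Helper24.UG.qk_closed (b / 2)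
    have e3 : b ^ 3 * (2 * qk 0 b - qk 0 (b / 2) / 2) = 16 * Real.sin (b / 2) - 8 * Real.sin b := by
      have e4 : b ^ 3 * qk 0 (b / 2) = 8 * (4 * (b / 2 - Real.sin (b / 2))) := by
        rw [← e2]; ring
      linear_combination 2 * e1 - e4 / 2
    have h3 : |b| ^ 3 * |2 * qk 0 b - qk 0 (b / 2) / 2| ≤ 24 := by
      rw [← abs_pow, ← abs_mul, e3]
      have s1 := abs_le.1 (Real.abs_sin_le_one b)
      have s2 := abs_le.1 (Real.abs_sin_le_one (b / 2))
      rw [abs_le]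
      constructor <;> linarith [s1.1, s1.2, s2.1, s2.2]
    have h4 : (1 + |b|) ^ 3 ≤ (2 * |b|) ^ 3 := by gcongr; linarith
    calc |2 * qk 0 b - qk 0 (b / 2) / 2| * (1 + |b|) ^ 3 ≤ |2 * qk 0 b - qk 0 (b / 2) / 2| * (2 * |b|) ^ 3 := by gcongr
      _ = 8 * (|b| ^ 3 * |2 * qk 0 b - qk 0 (b / 2) / 2|) := by ring
      _ ≤ 400 := by linarith

lemma kap_bd {X : ℝ} (hX : 0 < X) (s : ℝ) : |2 * kX X s - kX (X / 2) s| ≤ 100 * KM X s := by
  have hpi := Real.pi_gt_three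
  have hpi0 := Real.pi_pos
  have h1 := qk_two (X * s)
  have e : 2 * kX X s - kX (X / 2) s = X / (2 * Real.pi) * (2 * qk 0 (X * s) - qk 0 (X * s / 2) / 2) := by
    unfold kX
    rw [show X / 2 * s = X * s / 2 by ring]
    ring
  rw [e, abs_mul, abs_of_pos (by positivity)]
  rw [abs_mul, abs_of_pos hX] at h1
  unfold KM
  rw [← mul_div_assoc, le_div_iff₀ (by positivity)]
  calc X / (2 * Real.pi) * |2 * qk 0 (X * s) - qk 0 (X * s / 2) / 2| * (1 + X * |s|) ^ 3 =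
        X / (2 * Real.pi) * (|2 * qk 0 (X * s) - qk 0 (X * s / 2) / 2| * (1 + X * |s|) ^ 3) := by ring
    _ ≤ X / (2 * Real.pi) * 400 := by gcongr
    _ = X * (400 / (2 * Real.pi)) := by ring
    _ ≤ X * 100 := by
        apply mul_le_mul_of_nonneg_left _ hX.le
        rw [div_le_iff₀ (by positivity)]
        linarith
    _ = _ := by ring

lemma KM_jap {X : ℝ} (hX : 1 / 2 ≤ X) (s : ℝ) : KM X s * (1 + |s|) ^ (3 / 2 : ℝ) ≤ X * (3 * (1 + ‖X * s‖) ^ (-(3 / 2) : ℝ)) := by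
  have hX0 : 0 < X := by linarith
  have hs := abs_nonneg s
  have hp : 0 < 1 + X * |s| := by positivity
  have h1 : (1 + |s|) ^ (3 / 2 : ℝ) ≤ 3 * (1 + X * |s|) ^ (3 / 2 : ℝ) := by
    have h2 : 1 + |s| ≤ 2 * (1 + X * |s|) := by nlinarith
    have h3 : (2:ℝ) ^ (3 / 2 : ℝ) ≤ 3 := by
      have h4 : ((2:ℝ) ^ (3 / 2 : ℝ)) ^ 2 ≤ (3:ℝ) ^ 2 := by
        rw [← Real.rpow_natCast, ← Real.rpow_mul (by norm_num)]
        norm_num
      exact le_of_pow_le_pow_left₀ (by norm_num) (by norm_num) h4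
    calc (1 + |s|) ^ (3 / 2 : ℝ) ≤ (2 * (1 + X * |s|)) ^ (3 / 2 : ℝ) :=
          Real.rpow_le_rpow (by positivity) h2 (by norm_num)
      _ = 2 ^ (3 / 2 : ℝ) * (1 + X * |s|) ^ (3 / 2 : ℝ) := Real.mul_rpow (by norm_num) hp.le
      _ ≤ _ := by gcongr
  have e : ‖X * s‖ = X * |s| := by rw [Real.norm_eq_abs, abs_mul, abs_of_pos hX0]
  rw [e]
  unfold KM
  calc X / (1 + X * |s|) ^ 3 * (1 + |s|) ^ (3 / 2 : ℝ) ≤ X / (1 + X * |s|) ^ 3 * (3 * (1 + X * |s|) ^ (3 / 2 : ℝ)) := by gcongr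
    _ = X * (3 * ((1 + X * |s|) ^ (-3 : ℝ) * (1 + X * |s|) ^ (3 / 2 : ℝ))) := by
        rw [Real.rpow_neg hp.le, show (3:ℝ) = ((3:ℕ):ℝ) by norm_num, Real.rpow_natCast]
        push_cast
        ring
    _ = _ := by
        rw [← Real.rpow_add hp]
        norm_num

lemma jap32 : Integrable (fun r : ℝ => (1 + ‖r‖) ^ (-(3 / 2) : ℝ)) :=
  integrable_one_add_norm (E := ℝ) (μ := volume) (r := 3 / 2) (by simp; norm_num)

theorem KM_mom : ∃ C : ℝ, 0 < C ∧ ∀ X : ℝ, 1 / 2 ≤ X → Integrable (fun s => KM X s * (1 + |s|) ^ (3 / 2 : ℝ)) ∧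
    ∫ s, KM X s * (1 + |s|) ^ (3 / 2 : ℝ) ≤ C := by
  obtain ⟨C, hC⟩ : ∃ C : ℝ, C = ∫ r : ℝ, 3 * (1 + ‖r‖) ^ (-(3 / 2) : ℝ) := ⟨_, rfl⟩
  have hC0 : 0 ≤ C := by
    rw [hC]
    exact integral_nonneg fun r => by positivity
  refine ⟨C + 1, by positivity, fun X hX => ?_⟩
  have hX0 : 0 < X := by linarith
  have hi : Integrable (fun s : ℝ => X * (3 * (1 + ‖X * s‖) ^ (-(3 / 2) : ℝ))) :=
    (((jap32.const_mul 3).comp_mul_left' hX0.ne')).const_mul X
  have hv : ∫ s : ℝ, X * (3 * (1 + ‖X * s‖) ^ (-(3 / 2) : ℝ)) = C := by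
    rw [integral_const_mul, hC]
    have := Measure.integral_comp_mul_left (fun r : ℝ => 3 * (1 + ‖r‖) ^ (-(3 / 2) : ℝ)) X
    rw [this, abs_of_pos (inv_pos.2 hX0), smul_eq_mul, ← mul_assoc, mul_inv_cancel₀ hX0.ne', one_mul]
  have hn : ∀ s : ℝ, 0 ≤ KM X s * (1 + |s|) ^ (3 / 2 : ℝ) := fun s =>
    mul_nonneg (KM_nonneg hX0.le s) (by positivity)
  have hi2 : Integrable (fun s => KM X s * (1 + |s|) ^ (3 / 2 : ℝ)) := by
    refine hi.mono' ?_ (Eventually.of_forall fun s => ?_)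
    · apply Continuous.aestronglyMeasurable
      apply (KM_cont hX0.le).mul
      apply Continuous.rpow_const (by fun_prop)
      intro s
      left
      positivity
    · rw [Real.norm_of_nonneg (hn s)]
      exact KM_jap hX s
  refine ⟨hi2, ?_⟩
  have := integral_mono hi2 hi (KM_jap hX)
  rw [hv] at this
  linarith

/-- first moment -/
theorem KM_one : ∃ C : ℝ, 0 < C ∧ ∀ X : ℝ, 1 / 2 ≤ X → Integrable (fun s => KM X s * |s|) ∧
    ∫ s, KM X s * |s| ≤ C / X := by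
  obtain ⟨C, hC⟩ : ∃ C : ℝ, C = ∫ r : ℝ, (1 + ‖r‖) ^ (-(3 / 2) : ℝ) := ⟨_, rfl⟩
  have hC0 : 0 ≤ C := by
    rw [hC]
    exact integral_nonneg fun r => by positivity
  refine ⟨C + 1, by positivity, fun X hX => ?_⟩
  have hX0 : 0 < X := by linarith
  have hi : Integrable (fun s : ℝ => (1 + ‖X * s‖) ^ (-(3 / 2) : ℝ)) := jap32.comp_mul_left' hX0.ne'
  have hv : ∫ s : ℝ, (1 + ‖X * s‖) ^ (-(3 / 2) : ℝ) = C / X := by
    rw [hC]
    have := Measure.integral_comp_mul_left (fun r : ℝ => (1 + ‖r‖) ^ (-(3 / 2) : ℝ)) X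
    rw [this, abs_of_pos (inv_pos.2 hX0), smul_eq_mul]
    field_simp
  have hpt : ∀ s : ℝ, KM X s * |s| ≤ (1 + ‖X * s‖) ^ (-(3 / 2) : ℝ) := by
    intro s
    have e : ‖X * s‖ = X * |s| := by rw [Real.norm_eq_abs, abs_mul, abs_of_pos hX0]
    have hs := abs_nonneg s
    have hp : 1 ≤ 1 + X * |s| := le_add_of_nonneg_right (by positivity)
    rw [e]
    unfold KM
    calc X / (1 + X * |s|) ^ 3 * |s| = X * |s| / (1 + X * |s|) ^ 3 := by ring
      _ ≤ (1 + X * |s|) / (1 + X * |s|) ^ 3 := by gcongr; linarith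
      _ = (1 + X * |s|) ^ (-2 : ℝ) := by
          rw [Real.rpow_neg (by linarith), Real.rpow_two]
          field_simp
      _ ≤ _ := Real.rpow_le_rpow_of_exponent_le hp (by norm_num)
  have hi2 : Integrable (fun s => KM X s * |s|) := by
    refine hi.mono' ?_ (Eventually.of_forall fun s => ?_)
    · exact ((KM_cont hX0.le).mul (by fun_prop)).aestronglyMeasurable
    · rw [Real.norm_of_nonneg (mul_nonneg (KM_nonneg hX0.le s) (abs_nonneg s))]
      exact hpt s
  refine ⟨hi2, ?_⟩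
  have := integral_mono hi2 hi hpt
  rw [hv] at this
  have h2 : C / X ≤ (C + 1) / X := by gcongr; linarith
  linarith

/-- the tail -/
theorem KM_tail {X : ℝ} (hX : 0 < X) {a : ℝ} (ha : 0 ≤ a) :
    ∫⁻ s in {s : ℝ | a ≤ |s|}, ENNReal.ofReal (KM X s) ≤ ENNReal.ofReal (1 / (1 + (X * a) ^ 2)) := by
  have hbase : IntegrableOn (fun s : ℝ => X / (1 + X * s) ^ 3) (Ioi a) ∧
      ∫ s in Ioi a, X / (1 + X * s) ^ 3 = 1 / 2 * (1 / (1 + X * a) ^ 2) := by
    have hd : ∀ s ∈ Ici a, HasDerivAt (fun s : ℝ => -(1 / 2 * (1 / (1 + X * s) ^ 2))) (X / (1 + X * s) ^ 3) s := by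
      intro s hs
      have hs0 : 0 ≤ s := ha.trans hs
      have hp : 1 + X * s ≠ 0 := by positivity
      have h1 : HasDerivAt (fun s : ℝ => 1 + X * s) X s := by
        simpa using ((hasDerivAt_id s).const_mul X).const_add 1
      have h2 := (((h1.pow 2).fun_inv (pow_ne_zero 2 hp)).const_mul (1 / 2)).neg
      have e : (fun s : ℝ => -(1 / 2 * (1 / (1 + X * s) ^ 2))) = -fun s : ℝ => 1 / 2 * ((1 + X * s) ^ 2)⁻¹ := by
        funext s
        simp [one_div]
      rw [e]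
      refine h2.congr_deriv ?_
      simp only [Pi.pow_apply]
      field_simp
      ring
    have hlim : Tendsto (fun s : ℝ => -(1 / 2 * (1 / (1 + X * s) ^ 2))) atTop (𝓝 0) := by
      have h1 : Tendsto (fun s : ℝ => (1 + X * s) ^ 2) atTop atTop :=
        (tendsto_pow_atTop (by norm_num)).comp (tendsto_atTop_add_const_left _ _ (tendsto_id.const_mul_atTop hX))
      have h2 := h1.inv_tendsto_atTop.const_mul (-(1 / 2) : ℝ)
      rw [mul_zero] at h2
      refine h2.congr fun s => ?_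
      simp [one_div]
    have hpos : ∀ s ∈ Ioi a, 0 ≤ X / (1 + X * s) ^ 3 := by
      intro s hs
      have hs0 : 0 ≤ s := ha.trans (le_of_lt hs)
      positivity
    refine ⟨integrableOn_Ioi_deriv_of_nonneg' hd hpos hlim, ?_⟩
    rw [integral_Ioi_of_hasDerivAt_of_nonneg' hd hpos hlim]
    ring
  have hval : ∫⁻ s in Ioi a, ENNReal.ofReal (X / (1 + X * s) ^ 3) = ENNReal.ofReal (1 / 2 * (1 / (1 + X * a) ^ 2)) := by
    rw [← ofReal_integral_eq_lintegral_ofReal hbase.1 ?_, hbase.2]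
    refine ae_restrict_of_forall_mem measurableSet_Ioi fun s hs => ?_
    have hs0 : 0 ≤ s := ha.trans (le_of_lt hs)
    simp only [Pi.zero_apply]
    positivity
  have h1 : ∫⁻ s in Ioi a, ENNReal.ofReal (KM X s) = ENNReal.ofReal (1 / 2 * (1 / (1 + X * a) ^ 2)) := by
    rw [← hval]
    refine setLIntegral_congr_fun measurableSet_Ioi fun s hs => ?_
    have hs0 : 0 ≤ s := ha.trans (le_of_lt hs)
    simp only [KM, abs_of_nonneg hs0]
  have h2 : ∫⁻ s in Iio (-a), ENNReal.ofReal (KM X s) = ENNReal.ofReal (1 / 2 * (1 / (1 + X * a) ^ 2)) := by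
    rw [← h1, ← lintegral_indicator measurableSet_Iio, ← lintegral_indicator measurableSet_Ioi,
      ← lintegral_neg_eq_self]
    congr 1
    funext s
    by_cases hs : s ∈ Ioi a
    · have h3 : -s ∈ Iio (-a) := by
        simp only [mem_Iio, mem_Ioi] at hs ⊢
        linarith
      rw [indicator_of_mem hs, indicator_of_mem h3]
      simp only [KM, abs_neg]
    · have h3 : -s ∉ Iio (-a) := by
        simp only [mem_Iio, mem_Ioi] at hs ⊢
        linarith
      rw [indicator_of_notMem hs, indicator_of_notMem h3]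
  have hsub : {s : ℝ | a ≤ |s|} ⊆ (Ioi a ∪ Iio (-a)) ∪ {a, -a} := by
    intro s hs
    have hs' : a ≤ |s| := hs
    rcases le_abs.1 hs' with h | h
    · rcases eq_or_lt_of_le h with h | h
      · right; left; exact h.symm
      · left; left; exact h
    · rcases eq_or_lt_of_le h with h | h
      · right; right; simp [h]
      · left; right; simp only [mem_Iio]; linarith
  calc ∫⁻ s in {s : ℝ | a ≤ |s|}, ENNReal.ofReal (KM X s) ≤
        ∫⁻ s in (Ioi a ∪ Iio (-a)) ∪ {a, -a}, ENNReal.ofReal (KM X s) := lintegral_mono_set hsub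
    _ ≤ (∫⁻ s in Ioi a ∪ Iio (-a), ENNReal.ofReal (KM X s)) + ∫⁻ s in ({a, -a} : Set ℝ), ENNReal.ofReal (KM X s) :=
        lintegral_union_le _ _ _
    _ = ∫⁻ s in Ioi a ∪ Iio (-a), ENNReal.ofReal (KM X s) := by
        have h3 : volume ({a, -a} : Set ℝ) = 0 := (Set.toFinite _).measure_zero _
        rw [setLIntegral_measure_zero _ _ h3, add_zero]
    _ ≤ (∫⁻ s in Ioi a, ENNReal.ofReal (KM X s)) + ∫⁻ s in Iio (-a), ENNReal.ofReal (KM X s) :=
        lintegral_union_le _ _ _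
    _ = ENNReal.ofReal (1 / (1 + X * a) ^ 2) := by
        rw [h1, h2, ← ENNReal.ofReal_add (by positivity) (by positivity)]
        congr 1
        ring
    _ ≤ ENNReal.ofReal (1 / (1 + (X * a) ^ 2)) := by
        apply ENNReal.ofReal_le_ofReal
        apply one_div_le_one_div_of_le (by positivity)
        have : 0 ≤ X * a := by positivity
        nlinarith

end Pool.Agent.Helper49.TX
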