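import Pool.Agent.Helper49.TX.Kap
import Pool.Agent.Helper49.SO.Final
import Pool.Agent.Helper87.UG.LossPt

/-!
# TX: the number of zeros as a prime sum, pointwise

With the kernel `2 k_X - k_(X/2)`, `X = log T/M`, the error term `Sn` is a sum over the primes up to
`O (M + |SS| + far)`.
-/

set_option autoImplicit false
open MeasureTheory Set Filter Topology
open Pool.Agent.Helper57.Zeta Pool.Agent.Helper57.LH Pool.Agent.Helper57.ED Pool.Agent.Helper54.LG
open Pool.Agent.Helper49.SO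
open Pool.Agent.Helper93.UG (zc)
open Pool.Agent.Helper69.UG (XX near far)
open Pool.Agent.Helper24.WS (Edge EdgeM)

namespace Pool.Agent.Helper49.TX

/-- the zeros at distance at most `|s|` -/
noncomputable def Gs (y s : ℝ) : ℝ := (zc (Icc (y - |s|) (y + |s|)) : ℝ)

private lemma Gs_nonneg (y s : ℝ) : 0 ≤ Gs y s := Nat.cast_nonneg _

private def Wt (y : ℝ) (ρ : ZS) : Set ℝ := {s : ℝ | |y - (ρ : ℂ).im| ≤ |s|}

private lemma Wt_meas (y : ℝ) (ρ : ZS) : MeasurableSet (Wt y ρ) :=
  measurableSet_le measurable_const (by fun_prop)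

private lemma Gs_tsum (y s : ℝ) : ENNReal.ofReal (Gs y s) =
    ∑' ρ : ZS, (Wt y ρ).indicator (fun _ => ENNReal.ofReal (mx ρ)) s := by
  obtain ⟨F, hF, h1⟩ := Pool.Agent.Helper24.UG.zc_fin (I := Icc (y - |s|) (y + |s|)) subset_rfl
  have hiff : ∀ ρ : ZS, (ρ : ℂ).im ∈ Icc (y - |s|) (y + |s|) ↔ s ∈ Wt y ρ := by
    intro ρ
    show _ ↔ |y - (ρ : ℂ).im| ≤ |s|
    rw [abs_le, mem_Icc]
    constructor
    · rintro ⟨h1, h2⟩; constructor <;> linarith
    · rintro ⟨h1, h2⟩; constructor <;> linarith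
  unfold Gs
  rw [h1, ENNReal.ofReal_sum_of_nonneg (fun ρ _ => mx_nonneg _), tsum_eq_sum (s := F)]
  · refine Finset.sum_congr rfl fun ρ hρ => ?_
    rw [indicator_of_mem ((hiff ρ).1 ((hF ρ).1 hρ))]
  · intro ρ hρ
    rw [indicator_of_notMem fun h3 => hρ ((hF ρ).2 ((hiff ρ).2 h3))]

private lemma Gs_meas (y : ℝ) : Measurable (Gs y) := by
  have h0 : Measurable fun s => ENNReal.ofReal (Gs y s) := by
    simp_rw [Gs_tsum]
    exact Measurable.tsum fun ρ => measurable_const.indicator (Wt_meas y ρ)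
  have h1 := h0.ennreal_toReal
  have h2 : (fun s => (ENNReal.ofReal (Gs y s)).toReal) = Gs y := by
    funext s
    exact ENNReal.toReal_ofReal (Gs_nonneg _ _)
  rwa [h2] at h1

private lemma Gs_lint {X : ℝ} (hX : 0 < X) (y : ℝ) :
    ∫⁻ s, ENNReal.ofReal (KM X s * Gs y s) ≤ ENNReal.ofReal (∑' ρ : ZS, mx ρ * (1 / (1 + zb X y ρ ^ 2))) := by
  have h1 : ∀ s, ENNReal.ofReal (KM X s * Gs y s) =
      ∑' ρ : ZS, ENNReal.ofReal (KM X s) * (Wt y ρ).indicator (fun _ => ENNReal.ofReal (mx ρ)) s := by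
    intro s
    rw [ENNReal.ofReal_mul (KM_nonneg hX.le s), Gs_tsum, ENNReal.tsum_mul_left]
  simp_rw [h1]
  rw [lintegral_tsum, ENNReal.ofReal_tsum_of_nonneg _ (Pool.Agent.Helper24.UG.summable_inv hX y)]
  · apply ENNReal.tsum_le_tsum
    intro ρ
    have h2 : ∀ s, ENNReal.ofReal (KM X s) * (Wt y ρ).indicator (fun _ => ENNReal.ofReal (mx ρ)) s =
        (Wt y ρ).indicator (fun s => ENNReal.ofReal (KM X s) * ENNReal.ofReal (mx ρ)) s := by
      intro s
      by_cases hs : s ∈ Wt y ρ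
      · rw [indicator_of_mem hs, indicator_of_mem hs]
      · rw [indicator_of_notMem hs, indicator_of_notMem hs, mul_zero]
    simp_rw [h2]
    rw [lintegral_indicator (Wt_meas y ρ), lintegral_mul_const _ (KM_cont hX.le).measurable.ennreal_ofReal,
      ENNReal.ofReal_mul (mx_nonneg _), mul_comm]
    apply mul_le_mul_right
    have h3 := KM_tail hX (abs_nonneg (y - (ρ : ℂ).im))
    refine h3.trans (le_of_eq ?_)
    congr 3
    unfold zb
    rw [mul_pow, sq_abs, ← mul_pow]
  · intro ρ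
    exact mul_nonneg (mx_nonneg _) (by positivity)
  · intro ρ
    exact (((KM_cont hX.le).measurable.ennreal_ofReal).mul (measurable_const.indicator (Wt_meas y ρ))).aemeasurable

theorem Gs_int {X : ℝ} (hX : 0 < X) (y : ℝ) : Integrable (fun s => KM X s * Gs y s) ∧
    ∫ s, KM X s * Gs y s ≤ ∑' ρ : ZS, mx ρ * (1 / (1 + zb X y ρ ^ 2)) := by
  have h0 : ∀ s, 0 ≤ KM X s * Gs y s := fun s => mul_nonneg (KM_nonneg hX.le s) (Gs_nonneg y s)
  have hm : AEStronglyMeasurable (fun s => KM X s * Gs y s) :=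
    ((KM_cont hX.le).measurable.mul (Gs_meas y)).aestronglyMeasurable
  have h1 := Gs_lint hX y
  refine ⟨⟨hm, ?_⟩, ?_⟩
  · rw [hasFiniteIntegral_iff_ofReal (Filter.Eventually.of_forall h0)]
    exact h1.trans_lt ENNReal.ofReal_lt_top
  · rw [integral_eq_lintegral_of_nonneg_ae (Filter.Eventually.of_forall h0) hm]
    refine (ENNReal.toReal_mono ENNReal.ofReal_ne_top h1).trans (le_of_eq ?_)
    exact ENNReal.toReal_ofReal (tsum_nonneg fun ρ => mul_nonneg (mx_nonneg _) (by positivity))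

/-- the zeros near `y` -/
theorem Z_le {T M Y y : ℝ} (hT : 1 < T) (hM : 0 < M) :
    ∑' ρ : ZS, mx ρ * (1 / (1 + zb (XX T M) y ρ ^ 2)) ≤ near T M Y y + far T M Y y := by
  have hL : 0 < Real.log T := Real.log_pos hT
  have hX : 0 < XX T M := by unfold XX; positivity
  classical
  have s1 : Summable fun ρ : ZS => mx ρ * (if Real.log T * |(ρ : ℂ).re - 1 / 2| < Y then
      1 / (1 + zb (XX T M) y ρ ^ 2) else 0) := by
    refine Summable.of_nonneg_of_le (fun ρ => mul_nonneg (mx_nonneg _) ?_) (fun ρ => ?_)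
      (Pool.Agent.Helper24.UG.summable_inv hX y)
    · split_ifs <;> positivity
    · refine mul_le_mul_of_nonneg_left ?_ (mx_nonneg _)
      split_ifs
      · exact le_rfl
      · positivity
  have s2 : Summable fun ρ : ZS => mx ρ * (if Real.log T * |(ρ : ℂ).re - 1 / 2| < Y then 0 else
      Real.exp (2 * za (XX T M) ρ) / (1 + zb (XX T M) y ρ ^ 2)) := by
    refine Summable.of_nonneg_of_le (fun ρ => mul_nonneg (mx_nonneg _) ?_) (fun ρ => ?_)
      (Pool.Agent.Helper24.WS.summable_exp hX y)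
    · split_ifs <;> positivity
    · refine mul_le_mul_of_nonneg_left ?_ (mx_nonneg _)
      split_ifs
      · positivity
      · exact le_rfl
  unfold near far
  rw [← s1.tsum_add s2]
  refine Summable.tsum_le_tsum (fun ρ => ?_) (Pool.Agent.Helper24.UG.summable_inv hX y) (s1.add s2)
  rw [← mul_add]
  apply mul_le_mul_of_nonneg_left _ (mx_nonneg _)
  split_ifs
  · rw [add_zero]
  · rw [zero_add]
    apply div_le_div_of_nonneg_right _ (by positivity)
    exact Real.one_le_exp (mul_nonneg (by norm_num) (Pool.Agent.Helper24.WS.za_nonneg hX ρ))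

theorem near_nonneg (T M Y t : ℝ) : 0 ≤ near T M Y t := by
  unfold near
  refine tsum_nonneg fun ρ => mul_nonneg (mx_nonneg _) ?_
  split_ifs <;> positivity

theorem far_nonneg (T M Y t : ℝ) : 0 ≤ far T M Y t := by
  unfold far
  refine tsum_nonneg fun ρ => mul_nonneg (mx_nonneg _) ?_
  split_ifs
  · exact le_rfl
  · positivity

private lemma two_sq (b : ℝ) : 1 / (1 + (b / 2) ^ 2) ≤ 4 * (1 / (1 + b ^ 2)) := by
  rw [mul_one_div, div_le_div_iff₀ (by positivity) (by positivity)]
  nlinarith [sq_nonneg b]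

/-- half the scale -/
theorem half_scale {T M Y y : ℝ} (hT : 1 < T) (hM : 0 < M) :
    near T (2 * M) Y y ≤ 4 * near T M Y y ∧ far T (2 * M) Y y ≤ 4 * far T M Y y := by
  have hL : 0 < Real.log T := Real.log_pos hT
  have hX : 0 < XX T M := by unfold XX; positivity
  have hX2 : 0 < XX T (2 * M) := by unfold XX; positivity
  have e : XX T (2 * M) = XX T M / 2 := by unfold XX; field_simp
  have ea : ∀ ρ : ZS, za (XX T (2 * M)) ρ = za (XX T M) ρ / 2 := fun ρ => by rw [e]; unfold za; ring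
  have eb : ∀ ρ : ZS, zb (XX T (2 * M)) y ρ = zb (XX T M) y ρ / 2 := fun ρ => by rw [e]; unfold zb; ring
  classical
  constructor
  · have s1 : ∀ M : ℝ, 0 < M → Summable fun ρ : ZS => mx ρ * (if Real.log T * |(ρ : ℂ).re - 1 / 2| < Y then
        1 / (1 + zb (XX T M) y ρ ^ 2) else 0) := by
      intro M hM
      have hX : 0 < XX T M := by unfold XX; positivity
      refine Summable.of_nonneg_of_le (fun ρ => mul_nonneg (mx_nonneg _) ?_) (fun ρ => ?_)
        (Pool.Agent.Helper24.UG.summable_inv hX y)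
      · split_ifs <;> positivity
      · refine mul_le_mul_of_nonneg_left ?_ (mx_nonneg _)
        split_ifs
        · exact le_rfl
        · positivity
    unfold near
    rw [← tsum_mul_left]
    refine Summable.tsum_le_tsum (fun ρ => ?_) (s1 _ (by positivity)) ((s1 M hM).mul_left 4)
    rw [mul_left_comm]
    apply mul_le_mul_of_nonneg_left _ (mx_nonneg _)
    split_ifs
    · rw [eb]
      exact two_sq _
    · simp
  · have s2 : ∀ M : ℝ, 0 < M → Summable fun ρ : ZS => mx ρ * (if Real.log T * |(ρ : ℂ).re - 1 / 2| < Y then 0 else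
        Real.exp (2 * za (XX T M) ρ) / (1 + zb (XX T M) y ρ ^ 2)) := by
      intro M hM
      have hX : 0 < XX T M := by unfold XX; positivity
      refine Summable.of_nonneg_of_le (fun ρ => mul_nonneg (mx_nonneg _) ?_) (fun ρ => ?_)
        (Pool.Agent.Helper24.WS.summable_exp hX y)
      · split_ifs <;> positivity
      · refine mul_le_mul_of_nonneg_left ?_ (mx_nonneg _)
        split_ifs
        · positivity
        · exact le_rfl
    unfold far
    rw [← tsum_mul_left]
    refine Summable.tsum_le_tsum (fun ρ => ?_) (s2 _ (by positivity)) ((s2 M hM).mul_left 4)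
    rw [mul_left_comm]
    apply mul_le_mul_of_nonneg_left _ (mx_nonneg _)
    split_ifs
    · simp
    · rw [ea, eb]
      have h1 := two_sq (zb (XX T M) y ρ)
      have h2 : Real.exp (2 * (za (XX T M) ρ / 2)) ≤ Real.exp (2 * za (XX T M) ρ) := by
        apply Real.exp_le_exp.2
        linarith [Pool.Agent.Helper24.WS.za_nonneg hX ρ]
      calc Real.exp (2 * (za (XX T M) ρ / 2)) / (1 + (zb (XX T M) y ρ / 2) ^ 2) =
            Real.exp (2 * (za (XX T M) ρ / 2)) * (1 / (1 + (zb (XX T M) y ρ / 2) ^ 2)) := by ring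
        _ ≤ Real.exp (2 * za (XX T M) ρ) * (4 * (1 / (1 + zb (XX T M) y ρ ^ 2))) := by gcongr
        _ = _ := by ring

/-! ### the main term -/

lemma mn_crude (x : ℝ) : |mn x| ≤ 9 * (1 + |x|) ^ (3 / 2 : ℝ) := by
  have hpi := Real.pi_gt_three
  have hpi0 := Real.pi_pos
  have he := Real.exp_one_lt_d9
  have he0 := Real.exp_pos 1
  have he2 : 2 ≤ Real.exp 1 := by linarith [Real.exp_one_gt_d9]
  obtain ⟨u, hu⟩ : ∃ u : ℝ, u = x / (2 * Real.pi * Real.exp 1) := ⟨_, rfl⟩
  have e : mn x = Real.exp 1 * (u * Real.log u) := by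
    unfold mn
    rw [hu]
    field_simp
  have hux : |u| ≤ |x| := by
    rw [hu, abs_div, abs_of_pos (by positivity : 0 < 2 * Real.pi * Real.exp 1)]
    apply div_le_self (abs_nonneg x)
    nlinarith
  have hp : (1:ℝ) ≤ (1 + |x|) ^ (3 / 2 : ℝ) := Real.one_le_rpow (by linarith [abs_nonneg x]) (by norm_num)
  have h1 : |u * Real.log u| ≤ 3 * (1 + |x|) ^ (3 / 2 : ℝ) := by
    rcases le_total |u| 1 with h | h
    · have := Pool.Agent.Helper26.SO.xlog_le h
      linarith
    · have h2 : Real.log |u| ≤ |u| ^ (1 / 2 : ℝ) / (1 / 2) := Real.log_le_rpow_div (abs_nonneg u) (by norm_num)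
      have h3 : 0 ≤ Real.log |u| := Real.log_nonneg h
      rw [abs_mul, ← Real.log_abs u, abs_of_nonneg h3]
      have hu0 : 0 < |u| := by linarith
      calc |u| * Real.log |u| ≤ |u| * (|u| ^ (1 / 2 : ℝ) / (1 / 2)) := by gcongr
        _ = 2 * (|u| ^ (1 : ℝ) * |u| ^ (1 / 2 : ℝ)) := by rw [Real.rpow_one]; ring
        _ = 2 * |u| ^ (3 / 2 : ℝ) := by
            rw [← Real.rpow_add hu0]
            norm_num
        _ ≤ 2 * (1 + |x|) ^ (3 / 2 : ℝ) := by
            gcongr
            linarith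
        _ ≤ _ := by linarith
  rw [e, abs_mul, abs_of_pos he0]
  calc Real.exp 1 * |u * Real.log u| ≤ 3 * (3 * (1 + |x|) ^ (3 / 2 : ℝ)) := by
        apply mul_le_mul (by linarith) h1 (abs_nonneg _) (by norm_num)
    _ = _ := by ring

lemma mn_lip {T : ℝ} (hT : 32 ≤ T) {y s : ℝ} (hy1 : T / 2 ≤ y) (hy2 : y ≤ 3 * T) :
    |mn (y + s) - mn y| ≤ Real.log T * |s| + 900 * (1 + |s|) ^ (3 / 2 : ℝ) := by
  have hpi := Real.pi_gt_three
  have hpi0 := Real.pi_pos
  have hpi4 := Real.pi_le_four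
  have hs := abs_nonneg s
  have hlog : 0 ≤ Real.log T := Real.log_nonneg (by linarith)
  have hp : 0 ≤ (1 + |s|) ^ (3 / 2 : ℝ) := by positivity
  rcases le_total |s| (T / 4) with h | h
  · have hs2 := abs_le.1 h
    have h1 : ∀ x ∈ Icc (T / 4) (4 * T), HasDerivWithinAt mn (1 / (2 * Real.pi) * Real.log (x / (2 * Real.pi)))
        (Icc (T / 4) (4 * T)) x := by
      intro x hx
      exact (Pool.Agent.Helper26.SO.mn_deriv (by linarith [hx.1])).hasDerivWithinAt
    have h2 : ∀ x ∈ Icc (T / 4) (4 * T), ‖1 / (2 * Real.pi) * Real.log (x / (2 * Real.pi))‖ ≤ Real.log T := by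
      intro x hx
      have h3 : 1 ≤ x / (2 * Real.pi) := by
        rw [le_div_iff₀ (by positivity)]
        linarith [hx.1]
      have h4 : x / (2 * Real.pi) ≤ T := by
        rw [div_le_iff₀ (by positivity)]
        nlinarith [hx.2]
      have h5 : 0 ≤ Real.log (x / (2 * Real.pi)) := Real.log_nonneg h3
      rw [Real.norm_of_nonneg (by positivity)]
      have h6 : Real.log (x / (2 * Real.pi)) ≤ Real.log T := Real.log_le_log (by linarith) h4
      have h7 : 1 / (2 * Real.pi) ≤ 1 := by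
        rw [div_le_one (by positivity)]
        linarith
      calc 1 / (2 * Real.pi) * Real.log (x / (2 * Real.pi)) ≤ 1 * Real.log T := by gcongr
        _ = _ := one_mul _
    have h3 := (convex_Icc (T / 4) (4 * T)).norm_image_sub_le_of_norm_hasDerivWithin_le h1 h2
      (x := y) (y := y + s) ⟨by linarith, by linarith⟩ ⟨by linarith, by linarith⟩
    rw [Real.norm_eq_abs, Real.norm_eq_abs, add_sub_cancel_left] at h3
    linarith
  · have h1 := mn_crude (y + s)
    have h2 := mn_crude y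
    have h3 : (1 + |y + s|) ^ (3 / 2 : ℝ) ≤ 50 * (1 + |s|) ^ (3 / 2 : ℝ) ∧ (1 + |y|) ^ (3 / 2 : ℝ) ≤ 50 * (1 + |s|) ^ (3 / 2 : ℝ) := by
      have h4 : (13:ℝ) ^ (3 / 2 : ℝ) ≤ 50 := by
        have h4 : ((13:ℝ) ^ (3 / 2 : ℝ)) ^ 2 ≤ (50:ℝ) ^ 2 := by
          rw [← Real.rpow_natCast, ← Real.rpow_mul (by norm_num)]
          norm_num
        exact le_of_pow_le_pow_left₀ (by norm_num) (by norm_num) h4
      have h5 : ∀ x : ℝ, 0 ≤ x → x ≤ 13 * (1 + |s|) → x ^ (3 / 2 : ℝ) ≤ 50 * (1 + |s|) ^ (3 / 2 : ℝ) := by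
        intro x hx0 hx
        calc x ^ (3 / 2 : ℝ) ≤ (13 * (1 + |s|)) ^ (3 / 2 : ℝ) := Real.rpow_le_rpow hx0 hx (by norm_num)
          _ = 13 ^ (3 / 2 : ℝ) * (1 + |s|) ^ (3 / 2 : ℝ) := Real.mul_rpow (by norm_num) (by positivity)
          _ ≤ _ := by gcongr
      have hy : |y| = y := abs_of_pos (by linarith)
      refine ⟨h5 _ (by positivity) ?_, h5 _ (by positivity) ?_⟩
      · have := abs_add_le y s
        rw [hy] at this
        linarith
      · rw [hy]
        linarith
    have h6 := abs_sub (mn (y + s)) (mn y)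
    have h7 : 0 ≤ Real.log T * |s| := by positivity
    linarith [h3.1, h3.2]

lemma Sn_diff (y s : ℝ) : |Sn y - Sn (y + s)| ≤ Gs y s + |mn (y + s) - mn y| := by
  have h1 : |Nn y - Nn (y + s)| ≤ Gs y s := by
    unfold Gs
    rcases le_total 0 s with h | h
    · have h2 := Nn_sub (show y ≤ y + s by linarith)
      have h3 : zc (Ico y (y + s)) ≤ zc (Icc (y - |s|) (y + |s|)) := by
        apply Pool.Agent.Helper56.UG.zc_mono (a := y - |s|) (b := y + |s|) _ subset_rfl
        rw [abs_of_nonneg h]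
        intro x hx
        exact ⟨by linarith [hx.1], hx.2.le⟩
      rw [abs_sub_comm, h2, abs_of_nonneg (Nat.cast_nonneg _)]
      exact_mod_cast h3
    · have h2 := Nn_sub (show y + s ≤ y by linarith)
      have h3 : zc (Ico (y + s) y) ≤ zc (Icc (y - |s|) (y + |s|)) := by
        apply Pool.Agent.Helper56.UG.zc_mono (a := y - |s|) (b := y + |s|) _ subset_rfl
        rw [abs_of_nonpos h]
        intro x hx
        exact ⟨by linarith [hx.1], by linarith [hx.2]⟩
      rw [h2, abs_of_nonneg (Nat.cast_nonneg _)]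
      exact_mod_cast h3
  have e : Sn y - Sn (y + s) = (Nn y - Nn (y + s)) + (mn (y + s) - mn y) := by unfold Sn; ring
  rw [e]
  exact (abs_add_le _ _).trans (by linarith)

/-- the smoothing costs `O (M + near + far)` -/
theorem smooth_pt : ∃ C T₀ : ℝ, 0 < C ∧ ∀ T M Y y : ℝ, T₀ ≤ T → 1 ≤ M → M ≤ Real.log T → T / 2 ≤ y → y ≤ 3 * T →
    |Sn y - (2 * DS (XX T M) y - DS (XX T (2 * M)) y)| ≤ C * (M + near T M Y y + far T M Y y) := by
  obtain ⟨C1, hC1, hm⟩ := KM_mom
  obtain ⟨C2, hC2, ho⟩ := KM_one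
  refine ⟨100 * (1 + C2 + 900 * C1), 32, by positivity, fun T M Y y hT hM1 hML hy1 hy2 => ?_⟩
  have hT0 : 0 < T := by linarith
  have hlog : 0 < Real.log T := by linarith
  have hM0 : 0 < M := by linarith
  obtain ⟨X, hX⟩ : ∃ X, X = XX T M := ⟨_, rfl⟩
  have e2 : XX T (2 * M) = X / 2 := by rw [hX]; unfold XX; field_simp
  have hX1 : 1 ≤ X := by
    rw [hX]
    unfold XX
    rw [le_div_iff₀ hM0]
    linarith
  have hX0 : 0 < X := by linarith
  have hXM : Real.log T / X = M := by
    rw [hX]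
    unfold XX
    field_simp
  rw [e2, ← hX]
  obtain ⟨k1, k2⟩ := kX_mass hX0
  obtain ⟨k3, k4⟩ := kX_mass (show 0 < X / 2 by positivity)
  have d1 := DS_int (show 1 / 2 ≤ X by linarith) y
  have d2 := DS_int (show 1 / 2 ≤ X / 2 by linarith) y
  obtain ⟨g1, g2⟩ := Gs_int hX0 y
  obtain ⟨m1, m2⟩ := hm X (by linarith)
  obtain ⟨o1, o2⟩ := ho X (by linarith)
  have hz := Z_le (T := T) (M := M) (Y := Y) (y := y) (by linarith) hM0
  rw [← hX] at hz
  have c1 : Integrable fun s => (2 * kX X s - kX (X / 2) s) * Sn y := ((k1.const_mul 2).sub k3).mul_const _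
  have c2 : Integrable fun s => (2 * kX X s - kX (X / 2) s) * Sn (y + s) := by
    have := (d1.const_mul 2).sub d2
    refine this.congr (Eventually.of_forall fun s => ?_)
    simp only [Pi.sub_apply]
    ring
  have e3 : Sn y - (2 * DS X y - DS (X / 2) y) = ∫ s, (2 * kX X s - kX (X / 2) s) * (Sn y - Sn (y + s)) := by
    have h1 : ∫ s, (2 * kX X s - kX (X / 2) s) * Sn y = Sn y := by
      rw [integral_mul_const, integral_sub (k1.const_mul 2) k3, integral_const_mul, k2, k4]
      ring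
    have h2 : ∫ s, (2 * kX X s - kX (X / 2) s) * Sn (y + s) = 2 * DS X y - DS (X / 2) y := by
      unfold DS
      rw [← integral_const_mul, ← integral_sub (d1.const_mul 2) d2]
      congr 1
      funext s
      ring
    rw [← h1, ← h2, ← integral_sub c1 c2, h1]
    congr 1
    funext s
    ring
  have i1 : Integrable fun s => KM X s * Gs y s + Real.log T * (KM X s * |s|) := g1.add (o1.const_mul _)
  have i2 : Integrable fun s => KM X s * Gs y s + Real.log T * (KM X s * |s|) +
      900 * (KM X s * (1 + |s|) ^ (3 / 2 : ℝ)) := i1.add (m1.const_mul _)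
  have hpt : ∀ s, ‖(2 * kX X s - kX (X / 2) s) * (Sn y - Sn (y + s))‖ ≤ 100 * (KM X s * Gs y s + Real.log T * (KM X s * |s|) +
      900 * (KM X s * (1 + |s|) ^ (3 / 2 : ℝ))) := by
    intro s
    have h1 := kap_bd hX0 s
    have h2 := Sn_diff y s
    have h3 := mn_lip hT (s := s) hy1 hy2
    have hk := KM_nonneg hX0.le s
    rw [norm_mul, Real.norm_eq_abs, Real.norm_eq_abs]
    calc |2 * kX X s - kX (X / 2) s| * |Sn y - Sn (y + s)| ≤
          (100 * KM X s) * (Gs y s + (Real.log T * |s| + 900 * (1 + |s|) ^ (3 / 2 : ℝ))) := by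
            apply mul_le_mul h1 _ (abs_nonneg _) (by positivity)
            linarith
      _ = _ := by ring
  rw [e3, ← Real.norm_eq_abs]
  refine (norm_integral_le_of_norm_le (i2.const_mul 100) (Eventually.of_forall hpt)).trans ?_
  rw [integral_const_mul, integral_add i1 (m1.const_mul _), integral_add g1 (o1.const_mul _), integral_const_mul,
    integral_const_mul]
  have hn := near_nonneg T M Y y
  have hf := far_nonneg T M Y y
  have h1 : Real.log T * ∫ s, KM X s * |s| ≤ C2 * M := by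
    calc Real.log T * ∫ s, KM X s * |s| ≤ Real.log T * (C2 / X) := by gcongr
      _ = C2 * (Real.log T / X) := by ring
      _ = C2 * M := by rw [hXM]
  have h2 : 900 * ∫ s, KM X s * (1 + |s|) ^ (3 / 2 : ℝ) ≤ 900 * C1 * M := by
    calc 900 * ∫ s, KM X s * (1 + |s|) ^ (3 / 2 : ℝ) ≤ 900 * C1 := by gcongr
      _ ≤ 900 * C1 * M := le_mul_of_one_le_right (by positivity) hM1
  calc 100 * ((∫ s, KM X s * Gs y s) + Real.log T * (∫ s, KM X s * |s|) + 900 * ∫ s, KM X s * (1 + |s|) ^ (3 / 2 : ℝ)) ≤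
        100 * ((near T M Y y + far T M Y y) + C2 * M + 900 * C1 * M) := by
          gcongr
          exact g2.trans hz
    _ = 100 * (1 * (near T M Y y + far T M Y y) + (C2 + 900 * C1) * M) := by ring
    _ ≤ 100 * ((1 + C2 + 900 * C1) * (near T M Y y + far T M Y y) + (1 + C2 + 900 * C1) * M) := by
        gcongr
        · nlinarith
        · linarith
    _ = _ := by ring

/-- the error term in the number of zeros is a prime sum, up to `O (M + |SS| + far)` -/
theorem sharp_pt : ∃ C k T₀ : ℝ, 0 < C ∧ 0 < k ∧ ∀ T M Y y : ℝ, T₀ ≤ T → 16 ≤ M → M ≤ Real.log T → 0 < Y → Y ≤ k * M →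
    T / 2 ≤ y → y ≤ 3 * T →
    |Sn y + 2 * Pr (XX T M) y - Pr (XX T (2 * M)) y| ≤ C * (M + |SS (XX T M) y| + far T M Y y) := by
  obtain ⟨C1, T1, hC1, hS⟩ := smooth_pt
  obtain ⟨C2, T2, hC2, hF⟩ := formula
  obtain ⟨C3, k3, hC3, hk3, hN⟩ := Pool.Agent.Helper87.UG.near_pt
  obtain ⟨C4, hC4, hMM⟩ := MM_asy
  have hpi := Real.pi_gt_three
  have hpi0 := Real.pi_pos
  refine ⟨C1 * (1 + C3 * (3 + 2 * C4)) + 3 * C2 + 400 * (1 + C3 * (3 + 2 * C4)) + C1, min k3 1,
    max (max T1 T2) (Real.exp 32), by positivity, lt_min hk3 one_pos, fun T M Y y hT hM16 hML hY hYM hy1 hy2 => ?_⟩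
  simp only [max_le_iff] at hT
  obtain ⟨⟨hT1, hT2⟩, hT3⟩ := hT
  have hT32 : 32 ≤ T := by
    have := Real.add_one_le_exp (32:ℝ)
    linarith
  have hT0 : 0 < T := by linarith
  have hlog32 : 32 ≤ Real.log T := by
    have := Real.log_le_log (Real.exp_pos 32) hT3
    rwa [Real.log_exp] at this
  have hlog : 0 < Real.log T := by linarith
  have hM0 : 0 < M := by linarith
  have hYk : Y ≤ k3 * M := hYM.trans (mul_le_mul_of_nonneg_right (min_le_left _ _) hM0.le)
  have hY1 : Y ≤ M := by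
    refine hYM.trans ((mul_le_mul_of_nonneg_right (min_le_right _ _) hM0.le).trans ?_)
    rw [one_mul]
  have hXM : XX T M * M = Real.log T := by
    unfold XX
    field_simp
  have hX1 : 1 ≤ XX T M := by
    unfold XX
    rw [le_div_iff₀ hM0]
    linarith
  have hX0 : 0 < XX T M := by linarith
  have hX16 : XX T M ≤ Real.log T / 16 := by
    unfold XX
    exact div_le_div_of_nonneg_left hlog.le (by norm_num) hM16
  have e2 : XX T (2 * M) = XX T M / 2 := by unfold XX; field_simp
  have h1 := hS T M Y y hT1 (by linarith) hML hy1 hy2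
  have h2 := hF T (XX T M) y hT2 (by linarith) hX16 hy1 hy2
  have h3 := hF T (XX T (2 * M)) y hT2 (by rw [e2]; linarith) (by rw [e2]; linarith) hy1 hy2
  have h4 := hN T M Y y (by linarith) hM0 hY hYk
  have hn := near_nonneg T M Y y
  have hf := far_nonneg T M Y y
  obtain ⟨n2, f2⟩ := half_scale (T := T) (M := M) (Y := Y) (y := y) (by linarith) hM0
  have hn2 := near_nonneg T (2 * M) Y y
  have hf2 := far_nonneg T (2 * M) Y y
  have h5 := (Pool.Agent.Helper24.WS.abs_Edge_le hX0 y).trans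
    (Pool.Agent.Helper24.WS.EdgeM_le_near_far (T := T) (c := M) (Y := Y) (by linarith) hM0 hY1 y)
  have h6 := (Pool.Agent.Helper24.WS.abs_Edge_le (show 0 < XX T (2 * M) by rw [e2]; positivity) y).trans
    (Pool.Agent.Helper24.WS.EdgeM_le_near_far (T := T) (c := 2 * M) (Y := Y) (by linarith) (by positivity) (by linarith) y)
  have h7 : (Y / M) ^ 2 ≤ 1 := pow_le_one₀ (by positivity) (by rw [div_le_one hM0]; exact hY1)
  have h8 : (Y / (2 * M)) ^ 2 ≤ 1 := pow_le_one₀ (by positivity) (by rw [div_le_one (by positivity)]; linarith)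
  -- the main term
  have h9 : MM (XX T M) y ≤ (2 + 2 * C4) * M := by
    have g1 := (abs_le.1 (hMM (XX T M) y (by linarith) (by linarith))).2
    have hy0 : 1 ≤ y := by linarith
    have g2 : y ^ (-(3 / 2) : ℝ) ≤ 1 := Real.rpow_le_one_of_one_le_of_nonpos hy0 (by norm_num)
    have g3 : Real.exp (XX T M / 2) / y ^ 2 ≤ 1 := by
      rw [div_le_one (by positivity)]
      have g4 : Real.exp (XX T M / 2) ≤ T := by
        calc Real.exp (XX T M / 2) ≤ Real.exp (Real.log T) := Real.exp_le_exp.2 (by linarith)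
          _ = T := Real.exp_log hT0
      nlinarith
    have g5 : Real.log (y / (2 * Real.pi)) ≤ Real.log T := by
      apply Real.log_le_log (by positivity)
      rw [div_le_iff₀ (by positivity)]
      nlinarith
    have g6 : XX T M * MM (XX T M) y ≤ Real.log T * (1 + 2 * C4) := by
      have : C4 * (y ^ (-(3 / 2) : ℝ) + Real.exp (XX T M / 2) / y ^ 2) ≤ C4 * (1 + 1) := by gcongr
      nlinarith
    have g7 : XX T M * MM (XX T M) y ≤ XX T M * ((2 + 2 * C4) * M) := by
      calc XX T M * MM (XX T M) y ≤ Real.log T * (1 + 2 * C4) := g6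
        _ = XX T M * M * (1 + 2 * C4) := by rw [hXM]
        _ ≤ XX T M * M * (2 + 2 * C4) := by
            gcongr
            norm_num
        _ = _ := by ring
    exact le_of_mul_le_mul_left g7 hX0
  obtain ⟨S, hS⟩ : ∃ S, S = M + |SS (XX T M) y| + far T M Y y := ⟨_, rfl⟩
  have hSa := abs_nonneg (SS (XX T M) y)
  have hSM : M ≤ S := by rw [hS]; linarith
  have hSf : far T M Y y ≤ S := by rw [hS]; linarith
  have hS0 : 0 < S := by linarith
  have hS1 : 1 ≤ S := by linarith
  have h10 : near T M Y y ≤ C3 * (3 + 2 * C4) * S := by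
    calc near T M Y y ≤ C3 * (MM (XX T M) y - SS (XX T M) y + far T M Y y) := h4
      _ ≤ C3 * ((3 + 2 * C4) * S) := by
          apply mul_le_mul_of_nonneg_left _ hC3.le
          have g1 := neg_abs_le (SS (XX T M) y)
          have g2 : (2 + 2 * C4) * M ≤ (2 + 2 * C4) * S := by gcongr
          have g3 : |SS (XX T M) y| + far T M Y y ≤ S := by rw [hS]; linarith
          nlinarith
      _ = _ := by ring
  rw [← hS]
  obtain ⟨N, hN'⟩ : ∃ N, N = near T M Y y + far T M Y y := ⟨_, rfl⟩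
  have hNS : N ≤ (1 + C3 * (3 + 2 * C4)) * S := by rw [hN']; linarith
  have hN0 : 0 ≤ N := by rw [hN']; linarith
  have h11 : |Edge (XX T M) y| ≤ 104 * N := by
    have g1 : 104 * (Y / M) ^ 2 * near T M Y y ≤ 104 * 1 * near T M Y y := by gcongr
    rw [hN']
    linarith
  have h12 : |Edge (XX T (2 * M)) y| ≤ 416 * N := by
    have g1 : 104 * (Y / (2 * M)) ^ 2 * near T (2 * M) Y y ≤ 104 * 1 * (4 * near T M Y y) := by gcongr
    rw [hN']
    linarith
  have h13 : |Edge (XX T M) y / (2 * Real.pi)| ≤ 52 * N := by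
    rw [abs_div, abs_of_pos (by positivity : 0 < 2 * Real.pi), div_le_iff₀ (by positivity)]
    nlinarith
  have h14 : |Edge (XX T (2 * M)) y / (2 * Real.pi)| ≤ 104 * N := by
    rw [abs_div, abs_of_pos (by positivity : 0 < 2 * Real.pi), div_le_iff₀ (by positivity)]
    nlinarith
  have h15 : C1 * (M + near T M Y y + far T M Y y) ≤ C1 * ((1 + C3 * (3 + 2 * C4)) * S) + C1 * S := by
    rw [← mul_add]
    apply mul_le_mul_of_nonneg_left _ hC1.le
    linarith
  have h16 : 400 * N ≤ 400 * ((1 + C3 * (3 + 2 * C4)) * S) := by linarith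
  have h17 : C2 ≤ C2 * S := le_mul_of_one_le_right hC2.le hS1
  rw [abs_le] at h1 h2 h3 h13 h14 ⊢
  constructor
  · linarith [h1.1, h1.2, h2.1, h2.2, h3.1, h3.2, h13.1, h13.2, h14.1, h14.2]
  · linarith [h1.1, h1.2, h2.1, h2.2, h3.1, h3.2, h13.1, h13.2, h14.1, h14.2]

end Pool.Agent.Helper49.TX
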